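import Pool.Agent.Helper57.SI.Stmts

/-!
# SI, row TSQ: tails of convergent sums
-/

set_option autoImplicit false

namespace Pool.Agent.Helper13.SI

open MeasureTheory Set Filter Topology Pool.Agent.Helper57.SI
open Pool.Agent.Helper57.QZ (Pr tor circ aa Zy Wy Sy Vy Ky Fy pt lin)

theorem tsq_term_le {ε : ℝ} (hε : 0 < ε) (n : ℕ) (hn : 1 ≤ n) :
    ((1 + Real.log (n : ℝ)) ^ 2 / (n : ℝ)) ^ 2 ≤ (1 + 4 / ε) ^ 4 * (n : ℝ) ^ (-(2 - ε)) := by
  have hn1 : (1 : ℝ) ≤ n := by exact_mod_cast hn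
  have hn0 : (0 : ℝ) < n := by linarith
  have h1 : 1 + Real.log (n : ℝ) ≤ (1 + 4 / ε) * (n : ℝ) ^ (ε / 4) := by
    have h2 := Real.log_le_rpow_div hn0.le (by positivity : 0 < ε / 4)
    have h3 : (1 : ℝ) ≤ (n : ℝ) ^ (ε / 4) := Real.one_le_rpow hn1 (by positivity)
    have h4 : (n : ℝ) ^ (ε / 4) / (ε / 4) = 4 / ε * (n : ℝ) ^ (ε / 4) := by
      field_simp
    rw [h4] at h2
    linarith
  have h0 : 0 ≤ 1 + Real.log (n : ℝ) := by
    have := Real.log_nonneg hn1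
    linarith
  have h5 : (1 + Real.log (n : ℝ)) ^ 4 ≤ ((1 + 4 / ε) * (n : ℝ) ^ (ε / 4)) ^ 4 :=
    pow_le_pow_left₀ h0 h1 4
  have h6 : ((n : ℝ) ^ (ε / 4)) ^ 4 = (n : ℝ) ^ ε := by
    rw [← Real.rpow_natCast, ← Real.rpow_mul hn0.le]
    congr 1
    push_cast
    ring
  have h7 : (n : ℝ) ^ (-(2 - ε)) = (n : ℝ) ^ ε / (n : ℝ) ^ 2 := by
    rw [show -(2 - ε) = ε - 2 by ring, Real.rpow_sub hn0]
    norm_num
  rw [mul_pow, h6] at h5
  rw [h7, div_pow, ← pow_mul, mul_div_assoc']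
  exact div_le_div_of_nonneg_right h5 (by positivity)

theorem tsq_sum_le {s : ℝ} (hs : 1 < s) (x y : ℕ) (hx : 1 ≤ x) (hxy : x ≤ y) :
    ∑ n ∈ Finset.Ico (x + 1) (y + 1), (n : ℝ) ^ (-s) ≤ (x : ℝ) ^ (-(s - 1)) / (s - 1) := by
  have hx1 : (1 : ℝ) ≤ x := by exact_mod_cast hx
  have hx0 : (0 : ℝ) < x := by linarith
  have hanti : AntitoneOn (fun t : ℝ => t ^ (-s)) (Icc (x : ℝ) y) := by
    intro a ha b hb hab
    exact Real.rpow_le_rpow_of_nonpos (by linarith [ha.1]) hab (by linarith)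
  have h1 := AntitoneOn.sum_le_integral_Ico hxy hanti
  have h2 : ∑ n ∈ Finset.Ico (x + 1) (y + 1), (n : ℝ) ^ (-s) =
      ∑ i ∈ Finset.Ico x y, (((i + 1 : ℕ) : ℝ)) ^ (-s) := by
    rw [Finset.sum_Ico_add' (fun n : ℕ => (n : ℝ) ^ (-s)) x y 1]
  rw [h2]
  refine h1.trans ?_
  have hxy' : (x : ℝ) ≤ y := by exact_mod_cast hxy
  rw [integral_rpow (Or.inr ⟨by linarith, by
    rw [uIcc_of_le hxy']
    intro h
    linarith [h.1]⟩)]
  have hy : 0 ≤ (y : ℝ) ^ (-s + 1) := by positivity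
  have e1 : -s + 1 = -(s - 1) := by ring
  rw [e1] at hy ⊢
  have hs1 : 0 < s - 1 := by linarith
  rw [div_neg, ← neg_div]
  exact div_le_div_of_nonneg_right (by linarith) hs1.le

theorem st_TSQ : ST_TSQ := by
  intro ε hε
  have hε0 : 0 < ε := hε.1
  have h1ε : 0 < 1 - ε := by linarith [hε.2]
  have hC : 0 < (1 + 4 / ε) ^ 4 * (1 / (1 - ε)) := by positivity
  refine ⟨(1 + 4 / ε) ^ 4 * (1 / (1 - ε)), hC, fun y x hx => ?_⟩
  have hx1 : (1 : ℝ) ≤ x := by exact_mod_cast hx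
  have hR : 0 ≤ (1 + 4 / ε) ^ 4 * (1 / (1 - ε)) * (x : ℝ) ^ (-(1 - ε)) := by positivity
  by_cases hxy : x ≤ y
  · have h2 : ∑ p : Pr y, (if x < (p : ℕ) then
        ((1 + Real.log ((p : ℕ) : ℝ)) ^ 2 / ((p : ℕ) : ℝ)) ^ 2 else 0) ≤
        ∑ n ∈ Finset.Ico (x + 1) (y + 1), ((1 + Real.log (n : ℝ)) ^ 2 / (n : ℝ)) ^ 2 := by
      rw [← Finset.sum_filter]
      rw [← Finset.sum_image (f := fun n : ℕ => ((1 + Real.log (n : ℝ)) ^ 2 / (n : ℝ)) ^ 2)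
        (g := fun p : Pr y => (p : ℕ)) (by
          intro a _ b _ hab
          exact Subtype.ext hab)]
      refine Finset.sum_le_sum_of_subset_of_nonneg ?_ fun i _ _ => by positivity
      intro n hn
      obtain ⟨p, hp, rfl⟩ := Finset.mem_image.1 hn
      have hp1 := (Finset.mem_filter.1 hp).2
      have hp2 : (p : ℕ) ≤ y := Nat.lt_succ_iff.1 (Nat.lt_of_mem_primesBelow p.2)
      exact Finset.mem_Ico.2 ⟨hp1, by omega⟩
    have h3 : ∑ n ∈ Finset.Ico (x + 1) (y + 1), ((1 + Real.log (n : ℝ)) ^ 2 / (n : ℝ)) ^ 2 ≤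
        ∑ n ∈ Finset.Ico (x + 1) (y + 1), (1 + 4 / ε) ^ 4 * (n : ℝ) ^ (-(2 - ε)) := by
      refine Finset.sum_le_sum fun n hn => tsq_term_le hε0 n ?_
      have := (Finset.mem_Ico.1 hn).1
      omega
    have h4 := tsq_sum_le (s := 2 - ε) (by linarith) x y hx hxy
    rw [← Finset.mul_sum] at h3
    refine h2.trans (h3.trans ?_)
    rw [mul_assoc]
    refine mul_le_mul_of_nonneg_left (h4.trans (le_of_eq ?_)) (by positivity)
    rw [show 2 - ε - 1 = 1 - ε by ring, div_eq_inv_mul, one_div]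
  · refine le_trans (le_of_eq ?_) hR
    refine Finset.sum_eq_zero fun p _ => ?_
    have hp2 : (p : ℕ) ≤ y := Nat.lt_succ_iff.1 (Nat.lt_of_mem_primesBelow p.2)
    rw [if_neg (by omega)]

end Pool.Agent.Helper13.SI
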